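import Pool.Agent.Helper89.KN.Spec
import Pool.Agent.Helper89.KN.Base

/-! KN swarm, part LB: lower bound for the single vertex probability. -/

open MeasureTheory Set Filter Topology
open scoped ENNReal

noncomputable section

namespace KN
namespace H88LB

/-- half-open grid cell -/
def HC (h : ℝ) (c : ℤ × ℤ) : Set ℂ :=
  {z | (c.1 * h ≤ z.re ∧ z.re < (c.1 + 1) * h) ∧ (c.2 * h ≤ z.im ∧ z.im < (c.2 + 1) * h)}

theorem HC_eq (h : ℝ) (c : ℤ × ℤ) : HC h c =
    Complex.measurableEquivRealProd ⁻¹' (Ico (c.1 * h) ((c.1 + 1) * h) ×ˢ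
      Ico (c.2 * h) ((c.2 + 1) * h)) := by
  ext z
  simp [HC, Complex.measurableEquivRealProd_apply]

theorem meas_HC (h : ℝ) (c : ℤ × ℤ) : MeasurableSet (HC h c) := by
  rw [HC_eq]
  exact Complex.measurableEquivRealProd.measurable (measurableSet_Ico.prod measurableSet_Ico)

theorem vol_HC {h : ℝ} (hh : 0 ≤ h) (c : ℤ × ℤ) : volume (HC h c) = ENNReal.ofReal (h ^ 2) := by
  rw [HC_eq, Complex.volume_preserving_equiv_real_prod.measure_preimage
    (measurableSet_Ico.prod measurableSet_Ico).nullMeasurableSet, Measure.volume_eq_prod,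
    Measure.prod_prod, Real.volume_Ico, Real.volume_Ico, ← ENNReal.ofReal_mul (by linarith)]
  congr 1
  ring

theorem mem_HC_iff {h : ℝ} (hh : 0 < h) (c : ℤ × ℤ) (z : ℂ) :
    z ∈ HC h c ↔ c = (⌊z.re / h⌋, ⌊z.im / h⌋) := by
  have key : ∀ (n : ℤ) (t : ℝ), (n * h ≤ t ∧ t < (n + 1) * h) ↔ n = ⌊t / h⌋ := by
    intro n t
    constructor
    · rintro ⟨h1, h2⟩
      symm
      rw [Int.floor_eq_iff]
      exact ⟨(le_div_iff₀ hh).2 h1, (div_lt_iff₀ hh).2 h2⟩
    · intro hn
      have := Int.floor_eq_iff.1 hn.symm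
      exact ⟨(le_div_iff₀ hh).1 this.1, (div_lt_iff₀ hh).1 this.2⟩
  unfold HC
  rw [mem_setOf_eq, key, key, Prod.ext_iff]

theorem HC_disj {h : ℝ} (hh : 0 < h) {c d : ℤ × ℤ} (hcd : c ≠ d) : Disjoint (HC h c) (HC h d) := by
  rw [Set.disjoint_left]
  intro z hz hz'
  rw [mem_HC_iff hh] at hz hz'
  exact hcd (hz.trans hz'.symm)

theorem HC_diam {h : ℝ} (hh : 0 ≤ h) {c : ℤ × ℤ} {z w : ℂ} (hz : z ∈ HC h c) (hw : w ∈ HC h c) :
    dist z w ≤ Real.sqrt 2 * h := by
  obtain ⟨⟨a1, a2⟩, a3, a4⟩ := hz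
  obtain ⟨⟨b1, b2⟩, b3, b4⟩ := hw
  rw [Complex.dist_eq_re_im]
  apply Real.sqrt_le_iff.2
  refine ⟨by positivity, ?_⟩
  rw [mul_pow, Real.sq_sqrt (by norm_num)]
  have h1 : |z.re - w.re| ≤ h := by rw [abs_le]; constructor <;> nlinarith
  have h2 : |z.im - w.im| ≤ h := by rw [abs_le]; constructor <;> nlinarith
  have h3 := sq_abs (z.re - w.re)
  have h4 := sq_abs (z.im - w.im)
  nlinarith [abs_nonneg (z.re - w.re), abs_nonneg (z.im - w.im)]

theorem vol_ball (z : ℂ) {r : ℝ} (hr : 0 ≤ r) :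
    volume (Metric.ball z r) = ENNReal.ofReal (Real.pi * r ^ 2) := by
  rw [Complex.volume_ball, mul_comm, ENNReal.ofReal_mul Real.pi_pos.le, ENNReal.ofReal_pow hr]
  congr 1
  rw [ENNReal.ofReal, ENNReal.coe_inj]
  ext
  simp [Real.pi_pos.le]

/-- the volume of a round annulus -/
theorem vol_ann (z : ℂ) {r s : ℝ} (hr : 0 ≤ r) (hrs : r ≤ s) :
    volume (Metric.ball z s \ Metric.ball z r) = ENNReal.ofReal (Real.pi * s ^ 2 - Real.pi * r ^ 2) := by
  rw [measure_sdiff (Metric.ball_subset_ball hrs) Metric.isOpen_ball.measurableSet.nullMeasurableSet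
    (measure_ball_lt_top).ne, vol_ball z hr, vol_ball z (hr.trans hrs),
    ENNReal.ofReal_sub _ (by positivity)]

theorem box_mem {h t : ℝ} (hh : 0 < h) {n : ℤ} (hn : |(n : ℝ) * h| ≤ t) :
    n ∈ Finset.Icc (-⌈t / h⌉) ⌈t / h⌉ := by
  have h1 : |(n : ℝ)| ≤ t / h := by
    rw [le_div_iff₀ hh]
    rwa [abs_mul, abs_of_pos hh] at hn
  have h2 : |(n : ℝ)| ≤ (⌈t / h⌉ : ℝ) := h1.trans (Int.le_ceil _)
  rw [abs_le] at h2
  rw [Finset.mem_Icc]
  constructor
  · have := h2.1; exact_mod_cast this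
  · have := h2.2; exact_mod_cast this

open Classical in
/-- cells inside the annulus `r ≤ |z| < 2 r` -/
def FF (h r : ℝ) : Finset (ℤ × ℤ) :=
  (Finset.Icc (-⌈2 * r / h⌉) ⌈2 * r / h⌉ ×ˢ Finset.Icc (-⌈2 * r / h⌉) ⌈2 * r / h⌉).filter
    (fun c => HC h c ⊆ Metric.ball 0 (2 * r) \ Metric.ball 0 r)

theorem corner_mem {h : ℝ} (hh : 0 < h) (c : ℤ × ℤ) : (⟨c.1 * h, c.2 * h⟩ : ℂ) ∈ HC h c := by
  refine ⟨⟨le_refl _, ?_⟩, le_refl _, ?_⟩ <;> simp only <;> nlinarith

theorem mem_FF {h r : ℝ} (hh : 0 < h) (c : ℤ × ℤ) :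
    c ∈ FF h r ↔ HC h c ⊆ Metric.ball 0 (2 * r) \ Metric.ball 0 r := by
  classical
  unfold FF
  rw [Finset.mem_filter]
  constructor
  · exact fun h => h.2
  · intro hc
    refine ⟨?_, hc⟩
    have h1 := (hc (corner_mem hh c)).1
    rw [Metric.mem_ball, dist_zero_right] at h1
    rw [Finset.mem_product]
    constructor
    · apply box_mem hh
      exact (Complex.abs_re_le_norm (⟨c.1 * h, c.2 * h⟩ : ℂ)).trans h1.le
    · apply box_mem hh
      exact (Complex.abs_im_le_norm (⟨c.1 * h, c.2 * h⟩ : ℂ)).trans h1.le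

theorem vol_cells {h : ℝ} (hh : 0 < h) (G : Finset (ℤ × ℤ)) :
    volume (⋃ c ∈ G, HC h c) = ENNReal.ofReal (G.card * h ^ 2) := by
  rw [measure_biUnion_finset]
  · simp only [vol_HC hh.le, Finset.sum_const, nsmul_eq_mul]
    rw [ENNReal.ofReal_mul (by positivity), ENNReal.ofReal_natCast]
  · intro c _ d _ hcd
    exact HC_disj hh hcd
  · intro c _
    exact meas_HC h c

theorem card_FF {h r : ℝ} (hh : 0 < h) (hr : 0 ≤ r) :
    ((FF h r).card : ℝ) * h ^ 2 ≤ 3 * Real.pi * r ^ 2 := by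
  have h1 : volume (⋃ c ∈ FF h r, HC h c) ≤ volume (Metric.ball (0 : ℂ) (2 * r) \ Metric.ball 0 r) := by
    apply measure_mono
    apply iUnion₂_subset
    intro c hc
    exact (mem_FF hh c).1 hc
  rw [vol_cells hh, vol_ann 0 hr (by linarith)] at h1
  have h2 := (ENNReal.ofReal_le_ofReal_iff (by nlinarith [Real.pi_pos, sq_nonneg r])).1 h1
  nlinarith

/-- number of cells inside the lune -/
theorem card_lune (hL : S_LUNE) {h r : ℝ} (hh : 0 < h) (hb : Real.sqrt 2 * h ≤ r) {p : ℂ}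
    (hp : dist p 0 = r) (G : Finset (ℤ × ℤ))
    (hG : ∀ c, HC h c ⊆ Metric.ball p r \ Metric.ball 0 r → c ∈ G) :
    lune * r ^ 2 ≤ (G.card : ℝ) * h ^ 2 + 4 * Real.pi * r * (Real.sqrt 2 * h) := by
  set b := Real.sqrt 2 * h with hbdef
  have hb0 : 0 ≤ b := by positivity
  have hr : 0 ≤ r := hb0.trans hb
  have hsub : Metric.ball p r \ Metric.ball 0 r ⊆ (⋃ c ∈ G, HC h c) ∪
      ((Metric.ball p r \ Metric.ball p (r - b)) ∪ (Metric.ball 0 (r + b) \ Metric.ball 0 r)) := by
    intro z hz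
    by_cases h2 : z ∈ Metric.ball p (r - b)
    · by_cases h3 : z ∈ Metric.ball 0 (r + b)
      · right; right; exact ⟨h3, hz.2⟩
      · left
        have hzc : z ∈ HC h (⌊z.re / h⌋, ⌊z.im / h⌋) := (mem_HC_iff hh _ z).2 rfl
        refine mem_iUnion₂.2 ⟨_, hG _ ?_, hzc⟩
        intro w hw
        have hd := HC_diam hh.le hw hzc
        rw [← hbdef] at hd
        refine ⟨?_, ?_⟩
        · rw [Metric.mem_ball] at h2 ⊢
          linarith [dist_triangle w z p]
        · rw [Metric.mem_ball, not_lt] at h3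
          rw [Metric.mem_ball, not_lt]
          linarith [dist_triangle z w 0, dist_comm w z]
    · right; left; exact ⟨hz.1, h2⟩
  have h1 : volume (Metric.ball p r \ Metric.ball 0 r) ≤ volume (⋃ c ∈ G, HC h c) +
      (volume (Metric.ball p r \ Metric.ball p (r - b)) +
        volume (Metric.ball (0 : ℂ) (r + b) \ Metric.ball 0 r)) :=
    (measure_mono hsub).trans ((measure_union_le _ _).trans (add_le_add le_rfl (measure_union_le _ _)))
  have e1 : 0 ≤ Real.pi * r ^ 2 - Real.pi * (r - b) ^ 2 := by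
    have : (r - b) ^ 2 ≤ r ^ 2 := by nlinarith
    nlinarith [mul_le_mul_of_nonneg_left this Real.pi_pos.le]
  have e2 : 0 ≤ Real.pi * (r + b) ^ 2 - Real.pi * r ^ 2 := by
    have : r ^ 2 ≤ (r + b) ^ 2 := by nlinarith
    nlinarith [mul_le_mul_of_nonneg_left this Real.pi_pos.le]
  have e3 : (0 : ℝ) ≤ G.card * h ^ 2 := by positivity
  rw [hL.2.2 p 0 r hr hp, vol_cells hh, vol_ann p (by linarith) (by linarith),
    vol_ann 0 hr (by linarith), ← ENNReal.ofReal_add e1 e2,
    ← ENNReal.ofReal_add e3 (by linarith)] at h1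
  have h2 := (ENNReal.ofReal_le_ofReal_iff (by linarith)).1 h1
  calc lune * r ^ 2 ≤ _ := h2
    _ = (G.card : ℝ) * h ^ 2 + 4 * Real.pi * r * b := by ring

/-- counting points in disjoint cells -/
theorem cnt_cells {h : ℝ} (hh : 0 < h) (q : ℕ) (P : Multiset ℂ) (G : Finset (ℤ × ℤ))
    (hG : ∀ c ∈ G, q ≤ cnt (HC h c) P) : G.card * q ≤ cnt (⋃ c ∈ G, HC h c) P := by
  classical
  induction G using Finset.induction_on with
  | empty => simp
  | insert a G ha ih =>
    have hdisj : Disjoint (HC h a) (⋃ c ∈ G, HC h c) := by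
      rw [Set.disjoint_iUnion₂_right]
      intro c hc
      exact HC_disj hh (fun hac => ha (hac ▸ hc))
    have h1 : cnt (HC h a ∪ ⋃ c ∈ G, HC h c) P = cnt (HC h a) P + cnt (⋃ c ∈ G, HC h c) P := by
      have h2 := res_add_res_compl (HC h a) P
      have h3 : cnt (HC h a ∪ ⋃ c ∈ G, HC h c) P =
          cnt (HC h a ∪ ⋃ c ∈ G, HC h c) (res (HC h a) P) +
          cnt (HC h a ∪ ⋃ c ∈ G, HC h c) (res (HC h a)ᶜ P) := by
        conv_lhs => rw [← h2]
        rw [cnt_add]
      rw [h3, cnt_res, cnt_res]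
      congr 2
      · rw [Set.union_inter_cancel_left]
      · ext z
        constructor
        · rintro ⟨h4 | h4, h5⟩
          · exact absurd h4 h5
          · exact h4
        · intro h4
          exact ⟨Or.inr h4, fun h5 => (Set.disjoint_left.1 hdisj h5 h4)⟩
    rw [Finset.set_biUnion_insert, h1, Finset.card_insert_of_notMem ha]
    have h5 := hG a (Finset.mem_insert_self a G)
    have h6 := ih (fun c hc => hG c (Finset.mem_insert_of_mem hc))
    nlinarith

/-- the deterministic part -/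
theorem iso_of (hL : S_LUNE) {h r Λ : ℝ} {q k : ℕ} (hh : 0 < h) (hb : Real.sqrt 2 * h ≤ r)
    (hr : 0 < r)
    (hq : 4 / 3 * h ^ 2 ≤ q)
    (hk : (k : ℝ) + 1 ≤ 4 / 3 * (lune * r ^ 2 - 4 * Real.pi * r * (Real.sqrt 2 * h)))
    (P : Multiset ℂ) (h0 : cnt (Metric.ball 0 r) P = 0)
    (hc : ∀ c ∈ FF h r, q ≤ cnt (HC h c) P) : Iso k 0 {0} 0 0 Λ P := by
  classical
  refine ⟨fun p _ => Metric.infDist_nonneg, ?_⟩
  intro p hp _
  rw [Metric.infDist_singleton, add_zero, min_self]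
  have hpr : r ≤ dist p 0 := by
    have := (cnt_eq_zero.1 h0) p hp
    rwa [Metric.mem_ball, not_lt] at this
  have hp0 : 0 < dist p 0 := hr.trans_le hpr
  have hpn : 0 < ‖p‖ := by rwa [dist_zero_right] at hp0
  set p' : ℂ := ((r / ‖p‖ : ℝ) : ℂ) * p with hp'
  have hn' : dist p' 0 = r := by
    rw [dist_zero_right, hp', norm_mul, Complex.norm_real, Real.norm_eq_abs,
      abs_of_nonneg (by positivity), div_mul_cancel₀ _ hpn.ne']
  have hpp : dist p' p = dist p 0 - r := by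
    have h1 : p' - p = ((r / ‖p‖ - 1 : ℝ) : ℂ) * p := by rw [hp']; push_cast; ring
    have h2 : r / ‖p‖ ≤ 1 := by rw [div_le_one hpn]; rwa [dist_zero_right] at hpr
    rw [dist_eq_norm, h1, norm_mul, Complex.norm_real, Real.norm_eq_abs,
      abs_of_nonpos (by linarith), dist_zero_right]
    field_simp
    ring
  set G := (FF h r).filter (fun c => HC h c ⊆ Metric.ball p' r) with hGdef
  have hcard := card_lune hL hh hb hn' G (by
    intro c hcc
    rw [hGdef, Finset.mem_filter]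
    have h1 : HC h c ⊆ Metric.ball p' r := hcc.trans sdiff_subset
    refine ⟨(mem_FF hh c).2 ?_, h1⟩
    intro w hw
    refine ⟨?_, (hcc hw).2⟩
    have h2 := h1 hw
    rw [Metric.mem_ball] at h2 ⊢
    linarith [dist_triangle w p' 0])
  have hcount := cnt_cells hh q P G (fun c hcG => hc c (Finset.mem_filter.1 hcG).1)
  have hsub : (⋃ c ∈ G, HC h c) ⊆ Metric.ball p (dist p 0) := by
    apply iUnion₂_subset
    intro c hcG w hw
    have h2 := (Finset.mem_filter.1 hcG).2 hw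
    rw [Metric.mem_ball] at h2 ⊢
    linarith [dist_triangle w p' p]
  refine le_trans ?_ (hcount.trans (cnt_mono hsub P))
  have h3 : (k : ℝ) + 1 ≤ (G.card : ℝ) * q := by
    have h4 : (G.card : ℝ) * (4 / 3 * h ^ 2) ≤ (G.card : ℝ) * q :=
      mul_le_mul_of_nonneg_left hq (Nat.cast_nonneg _)
    nlinarith
  exact_mod_cast h3

/-- Stirling upper bound -/
theorem log_fact (q : ℕ) (hq : 1 ≤ q) :
    Real.log (q.factorial : ℝ) ≤ 1 + Real.log q + q * Real.log q - q := by
  induction q, hq using Nat.le_induction with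
  | base => simp
  | succ q hq ih =>
    have hq0 : (0 : ℝ) < q := by exact_mod_cast hq
    have h1 : Real.log ((q + 1).factorial : ℝ) = Real.log (q + 1) + Real.log (q.factorial : ℝ) := by
      rw [Nat.factorial_succ, Nat.cast_mul, Real.log_mul (by positivity) (by positivity)]
      push_cast
      rfl
    have h2 : 1 - ((q + 1 : ℝ) / q)⁻¹ ≤ Real.log ((q + 1 : ℝ) / q) :=
      Real.one_sub_inv_le_log_of_pos (by positivity)
    rw [Real.log_div (by positivity) hq0.ne', inv_div] at h2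
    have h3 : 1 - (q : ℝ) / (q + 1) = 1 / (q + 1) := by field_simp; ring
    rw [h3, div_le_iff₀ (by positivity)] at h2
    rw [h1]
    push_cast
    nlinarith

/-- the Poisson weight -/
theorem weight {x : ℝ} {q : ℕ} (hx : 1 ≤ x) (h1 : 4 / 3 * x ≤ q) (h2 : (q : ℝ) ≤ 4 / 3 * x + 1) :
    Real.exp (-((4 / 3 * Real.log (4 / 3) - 1 / 3) * x + (4 + Real.log (3 * x)))) ≤
      Real.exp (-x) * x ^ q / q.factorial := by
  have hx0 : 0 < x := by linarith
  have hq1 : (1 : ℝ) < q := by linarith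
  have hq1' : 1 ≤ q := by
    have : (1 : ℝ) ≤ q := hq1.le
    exact_mod_cast this
  have hf : (0 : ℝ) < q.factorial := by exact_mod_cast Nat.factorial_pos q
  have hpos : 0 < Real.exp (-x) * x ^ q / q.factorial := by positivity
  have e1 : Real.log (Real.exp (-x) * x ^ q) = -x + q * Real.log x := by
    rw [Real.log_mul (by positivity) (by positivity), Real.log_exp, Real.log_pow]
  rw [← Real.le_log_iff_exp_le hpos, Real.log_div (by positivity) hf.ne', e1]
  have h3 := log_fact q hq1'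
  have h4 : Real.log q - Real.log x ≤ Real.log (4 / 3) + 3 / (4 * x) := by
    rw [← Real.log_div (by positivity) hx0.ne']
    have h5 : (q : ℝ) / x ≤ (4 / 3) * (1 + 3 / (4 * x)) := by
      rw [div_le_iff₀ hx0]
      have : (4 / 3) * (1 + 3 / (4 * x)) * x = 4 / 3 * x + 1 := by field_simp
      rw [this]; exact h2
    calc Real.log ((q : ℝ) / x) ≤ Real.log ((4 / 3) * (1 + 3 / (4 * x))) :=
          Real.log_le_log (by positivity) h5
      _ = Real.log (4 / 3) + Real.log (1 + 3 / (4 * x)) :=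
          Real.log_mul (by norm_num) (by positivity)
      _ ≤ Real.log (4 / 3) + 3 / (4 * x) := by
          have := Real.log_le_sub_one_of_pos (show (0 : ℝ) < 1 + 3 / (4 * x) by positivity)
          linarith
  have h5 : Real.log q ≤ Real.log (3 * x) := Real.log_le_log (by linarith) (by linarith)
  have hl : Real.log (4 / 3) ≤ 1 / 3 := by
    have := Real.log_le_sub_one_of_pos (show (0 : ℝ) < 4 / 3 by norm_num)
    linarith
  have hl0 : 0 ≤ Real.log (4 / 3) := Real.log_nonneg (by norm_num)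
  have h6 : 3 / (4 * x) ≤ 3 / 4 := by
    apply div_le_div_of_nonneg_left (by norm_num) (by norm_num) (by linarith)
  have h60 : 0 ≤ 3 / (4 * x) := by positivity
  have h7 : (q : ℝ) * (Real.log q - Real.log x) ≤ (4 / 3 * x + 1) * (Real.log (4 / 3) + 3 / (4 * x)) := by
    apply (mul_le_mul_of_nonneg_left h4 (by linarith)).trans
    exact mul_le_mul_of_nonneg_right h2 (by linarith)
  have h8 : (4 / 3 * x + 1) * (Real.log (4 / 3) + 3 / (4 * x)) =
      4 / 3 * x * Real.log (4 / 3) + 1 + Real.log (4 / 3) + 3 / (4 * x) := by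
    field_simp
    ring
  nlinarith

/-- lower bound for fixed parameters -/
theorem fixed (hLOWC : S_LOWC) (hL : S_LUNE) (hB : S_BASIC) {h r Λ : ℝ} {k : ℕ} (hh : 1 ≤ h)
    (hb : Real.sqrt 2 * h ≤ r) (hrΛ : r ≤ Λ)
    (hk : (k : ℝ) + 1 ≤ 4 / 3 * (lune * r ^ 2 - 4 * Real.pi * r * (Real.sqrt 2 * h))) :
    ENNReal.ofReal (Real.exp (-(Real.pi * r ^ 2 + 3 * Real.pi * r ^ 2 *
      ((4 / 3 * Real.log (4 / 3) - 1 / 3) + (4 + Real.log (3 * h ^ 2)) / h ^ 2)))) ≤ pk k Λ := by
  have hh0 : 0 < h := by linarith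
  have hr : 0 < r := lt_of_lt_of_le (by positivity) hb
  set x := h ^ 2 with hx
  have hx1 : 1 ≤ x := by nlinarith
  have hx0 : 0 < x := by linarith
  set q := ⌈4 / 3 * x⌉₊ with hq
  have hq1 : 4 / 3 * x ≤ q := Nat.le_ceil _
  have hq2 : (q : ℝ) ≤ 4 / 3 * x + 1 := (Nat.ceil_lt_add_one (by positivity)).le
  set N := (FF h r).card with hN
  let e := (FF h r).equivFin
  have hlow := hLOWC (Metric.ball 0 (2 * Λ)) (Metric.ball 0 r) N (fun i => HC h (e.symm i).1)
    (fun _ => q) Metric.isOpen_ball.measurableSet Metric.isOpen_ball.measurableSet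
    (fun i => meas_HC h _) (Metric.ball_subset_ball (by linarith))
    (fun i => ((mem_FF hh0 _).1 (e.symm i).2).trans
      (sdiff_subset.trans (Metric.ball_subset_ball (by linarith))))
    (fun i => by
      rw [Set.disjoint_left]
      intro z hz hz'
      exact ((mem_FF hh0 _).1 (e.symm i).2 hz').2 hz)
    (fun i j hij => HC_disj hh0 (fun h' => hij (e.symm.injective (Subtype.ext h'))))
    (measure_ball_lt_top).ne
  have hmono : PP (Metric.ball 0 (2 * Λ)) (fun ω => cnt (Metric.ball 0 r) ω = 0 ∧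
      ∀ i, q ≤ cnt (HC h (e.symm i).1) ω) ≤ pk k Λ := by
    unfold PP pk PP
    apply hB.1 _ _ _ Metric.isOpen_ball.measurableSet
    rintro m y - ⟨h1, h2⟩
    apply iso_of hL hh0 hb hr hq1 hk _ h1
    intro c hc
    have := h2 (e ⟨c, hc⟩)
    simpa using this
  refine le_trans ?_ (hlow.trans hmono)
  apply ENNReal.ofReal_le_ofReal
  have hvZ : (volume (Metric.ball (0 : ℂ) r)).toReal = Real.pi * r ^ 2 := by
    rw [vol_ball 0 hr.le, ENNReal.toReal_ofReal (by positivity)]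
  have hvC : ∀ c, (volume (HC h c)).toReal = x := by
    intro c
    rw [vol_HC hh0.le, ENNReal.toReal_ofReal (by positivity)]
  simp only [hvZ, hvC, Finset.prod_const, Finset.card_univ, Fintype.card_fin]
  set κ := 4 / 3 * Real.log (4 / 3) - 1 / 3 with hκ
  have hw := weight hx1 hq1 hq2
  rw [← hκ] at hw
  have hκ0 : 0 ≤ κ := by
    have := Real.one_sub_inv_le_log_of_pos (show (0 : ℝ) < 4 / 3 by norm_num)
    rw [hκ]; norm_num at this ⊢; linarith
  have hlog0 : 0 ≤ Real.log (3 * x) := Real.log_nonneg (by linarith)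
  have hNx : (N : ℝ) * x ≤ 3 * Real.pi * r ^ 2 := card_FF hh0 hr.le
  have hy : 0 ≤ κ + (4 + Real.log (3 * x)) / x := by positivity
  have h1 : Real.exp (-(3 * Real.pi * r ^ 2 * (κ + (4 + Real.log (3 * x)) / x))) ≤
      (Real.exp (-x) * x ^ q / q.factorial) ^ N := by
    calc Real.exp (-(3 * Real.pi * r ^ 2 * (κ + (4 + Real.log (3 * x)) / x)))
        ≤ Real.exp (-((N : ℝ) * x * (κ + (4 + Real.log (3 * x)) / x))) := by
          apply Real.exp_le_exp.2
          have := mul_le_mul_of_nonneg_right hNx hy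
          linarith
      _ = Real.exp (-(κ * x + (4 + Real.log (3 * x)))) ^ N := by
          rw [← Real.exp_nat_mul]
          congr 1
          field_simp
      _ ≤ (Real.exp (-x) * x ^ q / q.factorial) ^ N :=
          pow_le_pow_left₀ (Real.exp_pos _).le hw N
  rw [neg_add, Real.exp_add]
  exact mul_le_mul_of_nonneg_left h1 (Real.exp_pos _).le

/-- `(4 + log (3x))/x → 0` along `x = η² log n` -/
theorem tend_err {η : ℝ} (hη : 0 < η) : Tendsto (fun n : ℝ =>
    (4 + Real.log (3 * (η * lam n) ^ 2)) / (η * lam n) ^ 2) atTop (𝓝 0) := by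
  have h1 : Tendsto (fun x : ℝ => (4 + Real.log (3 * x)) / x) atTop (𝓝 0) := by
    have h2 : Tendsto (fun x : ℝ => (4 + Real.log 3) / x) atTop (𝓝 0) :=
      tendsto_const_nhds.div_atTop tendsto_id
    have h3 : Tendsto (fun x : ℝ => Real.log x / x) atTop (𝓝 0) := by
      have := Real.isLittleO_log_id_atTop.tendsto_div_nhds_zero
      simpa using this
    have h4 := h2.add h3
    rw [add_zero] at h4
    apply h4.congr'
    filter_upwards [eventually_gt_atTop (0 : ℝ)] with x hx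
    rw [Real.log_mul (by norm_num) hx.ne']
    field_simp
    ring
  have h2 : Tendsto (fun n : ℝ => (η * lam n) ^ 2) atTop atTop := by
    have h3 : Tendsto (fun n : ℝ => η ^ 2 * Real.log n) atTop atTop :=
      Real.tendsto_log_atTop.const_mul_atTop (by positivity)
    apply h3.congr'
    filter_upwards [eventually_ge_atTop (1 : ℝ)] with n hn
    unfold lam
    rw [mul_pow, Real.sq_sqrt (Real.log_nonneg hn)]
  exact h1.comp h2

end H88LB

open H88LB in
theorem lb_thm (hLOWC : S_LOWC) (hL : S_LUNE) (hB : S_BASIC) : S_LB := by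
  intro c hc
  refine ⟨c + 1, by linarith, ?_⟩
  intro C e hC he
  have hl0 : 0 < lune := lt_of_lt_of_le (by norm_num) hL.1
  have hπ := Real.pi_pos
  have hπ2 : Real.pi < 3.15 := Real.pi_lt_d2
  set s := min 1 (e / 10) with hs
  have hs0 : 0 < s := lt_min one_pos (by positivity)
  have hs1 : s ≤ 1 := min_le_left _ _
  have hs2 : s ≤ e / 10 := min_le_right _ _
  set ρ := Real.sqrt (3 * c / (4 * lune) + s) with hρ
  have hρ2 : ρ ^ 2 = 3 * c / (4 * lune) + s := Real.sq_sqrt (by positivity)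
  have hρ0 : 0 < ρ := Real.sqrt_pos.2 (by positivity)
  have hρC : ρ ≤ c + 1 := by
    have h1 : 3 * c / (4 * lune) ≤ c := by
      rw [div_le_iff₀ (by positivity)]
      nlinarith [hL.1]
    apply Real.sqrt_le_iff.2
    exact ⟨by linarith, by nlinarith⟩
  set η := lune * s / (16 * Real.pi * ρ) with hη
  have hη0 : 0 < η := by positivity
  have hηρ : Real.pi * ρ * η = lune * s / 16 := by rw [hη]; field_simp
  have hηρ2 : η ≤ ρ / 16 := by
    rw [hη, div_le_div_iff₀ (by positivity) (by norm_num)]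
    have h1 : s ≤ ρ ^ 2 := by rw [hρ2]; have : 0 ≤ 3 * c / (4 * lune) := by positivity
                              linarith
    have h2 : lune * s ≤ Real.pi * ρ ^ 2 := mul_le_mul hL.2.1 h1 hs0.le hπ.le
    nlinarith
  have hsq2 : Real.sqrt 2 ≤ 2 := by
    apply Real.sqrt_le_iff.2; norm_num
  have hlog0 : 0 ≤ Real.log (4 / 3) := Real.log_nonneg (by norm_num)
  have hlog3 : Real.log (4 / 3) ≤ 1 / 3 := by
    have := Real.log_le_sub_one_of_pos (show (0 : ℝ) < 4 / 3 by norm_num)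
    linarith
  have E1 : ∀ᶠ n : ℝ in atTop, (4 + Real.log (3 * (η * lam n) ^ 2)) / (η * lam n) ^ 2 ≤
      e / (6 * Real.pi * ρ ^ 2) :=
    (tend_err hη0).eventually_le_const (by positivity)
  have E2 : ∀ᶠ n : ℝ in atTop, 1 / η ^ 2 ≤ Real.log n :=
    Real.tendsto_log_atTop.eventually_ge_atTop _
  have E3 : ∀ᶠ n : ℝ in atTop, 1 / (2 / 3 * lune * s) ≤ Real.log n :=
    Real.tendsto_log_atTop.eventually_ge_atTop _
  filter_upwards [E1, E2, E3, eventually_gt_atTop (1 : ℝ)] with n e1 e2 e3 hn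
  have hL0 : 0 < Real.log n := Real.log_pos hn
  set L := Real.log n with hLdef
  have hlam2 : lam n ^ 2 = L := Real.sq_sqrt hL0.le
  have hlam0 : 0 < lam n := Real.sqrt_pos.2 hL0
  have hx : (η * lam n) ^ 2 = η ^ 2 * L := by rw [mul_pow, hlam2]
  have hr2 : (ρ * lam n) ^ 2 = ρ ^ 2 * L := by rw [mul_pow, hlam2]
  have hh1 : 1 ≤ η * lam n := by
    rw [div_le_iff₀ (by positivity)] at e2
    have h1 : 1 ≤ (η * lam n) ^ 2 := by rw [hx]; linarith
    nlinarith [mul_pos hη0 hlam0]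
  have hb : Real.sqrt 2 * (η * lam n) ≤ ρ * lam n := by
    have h1 : Real.sqrt 2 * η ≤ ρ := by nlinarith
    nlinarith
  have hk : ((kn c n : ℕ) : ℝ) + 1 ≤ 4 / 3 * (lune * (ρ * lam n) ^ 2 -
      4 * Real.pi * (ρ * lam n) * (Real.sqrt 2 * (η * lam n))) := by
    have h1 : ((kn c n : ℕ) : ℝ) ≤ c * L := Nat.floor_le (by positivity)
    have h2 : 4 * Real.pi * (ρ * lam n) * (Real.sqrt 2 * (η * lam n)) =
        4 * Real.sqrt 2 * (Real.pi * ρ * η) * L := by rw [← hlam2]; ring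
    have h3 : 4 / 3 * (lune * (ρ ^ 2 * L)) = c * L + 4 / 3 * lune * s * L := by
      rw [hρ2]; field_simp
    have h4 : 1 ≤ 2 / 3 * lune * s * L := by
      rw [div_le_iff₀ (by positivity)] at e3
      linarith
    have h5 : 4 * Real.sqrt 2 * (lune * s / 16) * L ≤ 1 / 2 * (lune * s * L) := by
      have : 0 ≤ lune * s * L := by positivity
      nlinarith
    rw [hr2, h2, hηρ]
    nlinarith
  have hfix := fixed hLOWC hL hB (h := η * lam n) (r := ρ * lam n) (Λ := C * lam n)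
    (k := kn c n) hh1 hb (by nlinarith) hk
  refine le_trans (ENNReal.ofReal_le_ofReal ?_) hfix
  rw [Real.rpow_def_of_pos (by linarith)]
  apply Real.exp_le_exp.2
  rw [← hLdef]
  have h1 : 3 * Real.pi * (ρ * lam n) ^ 2 * ((4 + Real.log (3 * (η * lam n) ^ 2)) / (η * lam n) ^ 2) ≤
      e / 2 * L := by
    have h2 := mul_le_mul_of_nonneg_left e1 (show 0 ≤ 3 * Real.pi * (ρ * lam n) ^ 2 by positivity)
    refine h2.trans (le_of_eq ?_)
    rw [hr2]
    field_simp
    ring
  have h2 : Real.pi * (ρ * lam n) ^ 2 + 3 * Real.pi * (ρ * lam n) ^ 2 *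
      (4 / 3 * Real.log (4 / 3) - 1 / 3) = (c * f0 + 4 * Real.pi * Real.log (4 / 3) * s) * L := by
    rw [hr2, hρ2]
    unfold f0
    field_simp
    ring
  have h3 : 4 * Real.pi * Real.log (4 / 3) * s ≤ e / 2 := by
    have h4 : 4 * Real.pi * Real.log (4 / 3) ≤ 5 := by nlinarith
    have h5 : 0 ≤ 4 * Real.pi * Real.log (4 / 3) := by positivity
    nlinarith
  have h6 : 4 * Real.pi * Real.log (4 / 3) * s * L ≤ e / 2 * L :=
    mul_le_mul_of_nonneg_right h3 hL0.le
  have h7 : Real.pi * (ρ * lam n) ^ 2 + 3 * Real.pi * (ρ * lam n) ^ 2 *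
      ((4 / 3 * Real.log (4 / 3) - 1 / 3) + (4 + Real.log (3 * (η * lam n) ^ 2)) / (η * lam n) ^ 2)
      = (Real.pi * (ρ * lam n) ^ 2 + 3 * Real.pi * (ρ * lam n) ^ 2 *
      (4 / 3 * Real.log (4 / 3) - 1 / 3)) + 3 * Real.pi * (ρ * lam n) ^ 2 *
        ((4 + Real.log (3 * (η * lam n) ^ 2)) / (η * lam n) ^ 2) := by ring
  rw [h7, h2]
  nlinarith

end KN
end
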