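import Pool.Agent.Helper89.KN.Spec
import Pool.Agent.Helper89.KN.Base

/-! KN swarm, part RM: the radial map is measure preserving. -/

open MeasureTheory Set Filter Topology
open scoped ENNReal

noncomputable section

namespace KN
namespace H88RM

theorem meas_star (v : ℂ) (a : ℝ → ℝ) (ha : Measurable a) : MeasurableSet (starSet v a) := by
  unfold starSet
  apply measurableSet_le
  · fun_prop
  · exact ha.comp (Complex.measurable_arg.comp (measurable_id.sub_const v))

theorem meas_radT (v : ℂ) (a : ℝ → ℝ) (ha : Measurable a) : Measurable (radT v a) := by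
  have h1 : Measurable fun x : ℂ => (x - v).arg :=
    Complex.measurable_arg.comp (measurable_id.sub_const v)
  have h2 : Measurable fun x : ℂ => a (x - v).arg := ha.comp h1
  unfold radT
  have h3 : Measurable fun x : ℂ => Real.sqrt (dist x v ^ 2 - a (x - v).arg) := by
    apply Real.continuous_sqrt.measurable.comp
    apply Measurable.sub
    · fun_prop
    · exact h2
  have h4 : Measurable fun x : ℂ => ((x - v).arg : ℂ) := Complex.measurable_ofReal.comp h1
  have h5 : Measurable fun x : ℂ => (Real.sqrt (dist x v ^ 2 - a (x - v).arg) : ℂ) :=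
    Complex.measurable_ofReal.comp h3
  exact (h5.mul (Complex.continuous_exp.measurable.comp (h4.mul_const _))).const_add v

/-- one-dimensional substitution -/
theorem oneD (A : ℝ) (hA : 0 ≤ A) (g : ℝ → ℝ≥0∞) :
    ∫⁻ r in Ioi (Real.sqrt A), ENNReal.ofReal r * g (Real.sqrt (r ^ 2 - A)) =
      ∫⁻ s in Ioi (0 : ℝ), ENNReal.ofReal s * g s := by
  have himg : (fun s : ℝ => Real.sqrt (s ^ 2 + A)) '' Ioi 0 = Ioi (Real.sqrt A) := by
    ext r
    constructor
    · rintro ⟨s, hs, rfl⟩
      simp only [mem_Ioi] at hs ⊢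
      exact Real.sqrt_lt_sqrt hA (by nlinarith)
    · intro hr
      simp only [mem_Ioi] at hr
      have hr0 : 0 ≤ r := (Real.sqrt_nonneg A).trans hr.le
      have h1 : A < r ^ 2 := by
        have := Real.lt_sqrt (x := A) (y := r)
        rw [Real.sqrt_lt' (lt_of_le_of_lt (Real.sqrt_nonneg A) hr)] at hr
        exact hr
      refine ⟨Real.sqrt (r ^ 2 - A), ?_, ?_⟩
      · simp only [mem_Ioi]; exact Real.sqrt_pos.2 (by linarith)
      · simp only
        rw [Real.sq_sqrt (by linarith), sub_add_cancel, Real.sqrt_sq hr0]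
  have hder : ∀ s ∈ Ioi (0 : ℝ), HasDerivWithinAt (fun s : ℝ => Real.sqrt (s ^ 2 + A))
      (s / Real.sqrt (s ^ 2 + A)) (Ioi 0) s := by
    intro s hs
    have hs' : (0 : ℝ) < s := hs
    have hpos : s ^ 2 + A ≠ 0 := by positivity
    have h1 : HasDerivAt (fun s : ℝ => s ^ 2 + A) (2 * s) s := by
      simpa using (hasDerivAt_pow 2 s).add_const A
    have h2 := h1.sqrt hpos
    have h3 : (2 * s) / (2 * Real.sqrt (s ^ 2 + A)) = s / Real.sqrt (s ^ 2 + A) := by
      rw [mul_div_mul_left _ _ (two_ne_zero)]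
    rw [h3] at h2
    exact h2.hasDerivWithinAt
  have hinj : InjOn (fun s : ℝ => Real.sqrt (s ^ 2 + A)) (Ioi 0) := by
    intro s hs t ht hst
    simp only [mem_Ioi] at hs ht
    simp only at hst
    have h1 : s ^ 2 + A = t ^ 2 + A := by
      rw [← Real.sq_sqrt (show (0 : ℝ) ≤ s ^ 2 + A by positivity),
        ← Real.sq_sqrt (show (0 : ℝ) ≤ t ^ 2 + A by positivity), hst]
    have h2 : s ^ 2 = t ^ 2 := by linarith
    exact (pow_left_inj₀ hs.le ht.le two_ne_zero).1 h2
  rw [← himg, lintegral_image_eq_lintegral_abs_deriv_mul measurableSet_Ioi hder hinj]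
  apply setLIntegral_congr_fun measurableSet_Ioi
  intro s hs
  have hs' : (0 : ℝ) < s := hs
  have hq : 0 < Real.sqrt (s ^ 2 + A) := Real.sqrt_pos.2 (by positivity)
  simp only
  rw [Real.sq_sqrt (by positivity), add_sub_cancel_right, Real.sqrt_sq hs'.le, ← mul_assoc,
    ← ENNReal.ofReal_mul (abs_nonneg _), abs_of_nonneg (by positivity), div_mul_cancel₀ _ hq.ne']

theorem oneArea (A : ℝ) (hA : 0 ≤ A) :
    ∫⁻ r in Ioc 0 (Real.sqrt A), ENNReal.ofReal r = ENNReal.ofReal (A / 2) := by
  rw [← ofReal_integral_eq_lintegral_ofReal]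
  · congr 1
    rw [← intervalIntegral.integral_of_le (Real.sqrt_nonneg A), integral_id,
      Real.sq_sqrt hA]
    ring
  · exact (continuous_id.integrableOn_Icc).mono_set Ioc_subset_Icc_self
  · filter_upwards [ae_restrict_mem measurableSet_Ioc] with r hr
    exact hr.1.le

/-- polar coordinates as an iterated integral -/
theorem polar (f : ℂ → ℝ≥0∞) (hf : Measurable f) :
    ∫⁻ x, f x = ∫⁻ θ in Ioo (-Real.pi) Real.pi, ∫⁻ r in Ioi (0 : ℝ),
      ENNReal.ofReal r * f (r * (Real.cos θ + Real.sin θ * Complex.I)) := by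
  rw [← Complex.lintegral_comp_polarCoord_symm, polarCoord_target, Measure.volume_eq_prod,
    ← Measure.prod_restrict, lintegral_prod_symm]
  · simp only [Complex.polarCoord_symm_apply, smul_eq_mul]
  · apply Measurable.aemeasurable
    simp only [Complex.polarCoord_symm_apply, smul_eq_mul]
    apply Measurable.mul
    · fun_prop
    · apply hf.comp
      fun_prop

theorem arg_pt {r θ : ℝ} (hr : 0 < r) (hθ : θ ∈ Ioo (-Real.pi) Real.pi) :
    ((r : ℂ) * (Real.cos θ + Real.sin θ * Complex.I)).arg = θ := by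
  rw [Complex.ofReal_cos, Complex.ofReal_sin]
  exact Complex.arg_mul_cos_add_sin_mul_I hr ⟨hθ.1, hθ.2.le⟩

theorem norm_pt {r θ : ℝ} (hr : 0 ≤ r) :
    ‖((r : ℂ) * (Real.cos θ + Real.sin θ * Complex.I))‖ = r := by
  rw [norm_mul, Complex.ofReal_cos, Complex.ofReal_sin, Complex.norm_cos_add_sin_mul_I, mul_one,
    Complex.norm_real, Real.norm_eq_abs, abs_of_nonneg hr]

theorem vol_star0 (a : ℝ → ℝ) (ha : Measurable a) (h0 : ∀ θ, 0 ≤ a θ) :
    volume (starSet 0 a) = ∫⁻ θ in Ioc (-Real.pi) Real.pi, ENNReal.ofReal (a θ / 2) := by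
  rw [← lintegral_indicator_one (meas_star 0 a ha), polar _ (measurable_one.indicator (meas_star 0 a ha))]
  rw [setLIntegral_congr (Ioo_ae_eq_Ioc (a := -Real.pi) (b := Real.pi) (μ := volume)).symm]
  apply setLIntegral_congr_fun measurableSet_Ioo
  intro θ hθ
  simp only
  rw [← oneArea (a θ) (h0 θ), ← lintegral_indicator measurableSet_Ioi,
    ← lintegral_indicator measurableSet_Ioc]
  congr 1
  ext r
  by_cases hr : 0 < r
  · rw [indicator_of_mem (show r ∈ Ioi (0 : ℝ) from hr)]
    have key : ((r : ℂ) * (Real.cos θ + Real.sin θ * Complex.I)) ∈ starSet 0 a ↔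
        r ∈ Ioc 0 (Real.sqrt (a θ)) := by
      unfold starSet
      simp only [mem_setOf_eq, dist_zero_right, sub_zero]
      rw [arg_pt hr hθ, norm_pt hr.le]
      simp only [mem_Ioc, hr, true_and]
      rw [Real.le_sqrt hr.le (h0 θ)]
    by_cases hm : r ∈ Ioc 0 (Real.sqrt (a θ))
    · rw [indicator_of_mem (key.2 hm), indicator_of_mem hm]; simp
    · rw [indicator_of_notMem (fun h => hm (key.1 h)), indicator_of_notMem hm]; simp
  · rw [indicator_of_notMem (show r ∉ Ioi (0 : ℝ) from hr),
      indicator_of_notMem (fun h => hr h.1)]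

theorem lint0 (a : ℝ → ℝ) (ha : Measurable a) (h0 : ∀ θ, 0 ≤ a θ) (f : ℂ → ℝ≥0∞)
    (hf : Measurable f) :
    ∫⁻ x in (starSet 0 a)ᶜ, f (radT 0 a x) = ∫⁻ x, f x := by
  rw [← lintegral_indicator (meas_star 0 a ha).compl,
    polar (((starSet 0 a)ᶜ).indicator (fun x => f (radT 0 a x)))
      ((hf.comp (meas_radT 0 a ha)).indicator (meas_star 0 a ha).compl), polar f hf]
  apply setLIntegral_congr_fun measurableSet_Ioo
  intro θ hθ
  simp only
  have h1 := oneD (a θ) (h0 θ) (fun s => f (s * (Real.cos θ + Real.sin θ * Complex.I)))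
  rw [← h1, ← lintegral_indicator measurableSet_Ioi, ← lintegral_indicator measurableSet_Ioi]
  congr 1
  ext r
  by_cases hr : 0 < r
  · rw [indicator_of_mem (show r ∈ Ioi (0 : ℝ) from hr)]
    have key : ((r : ℂ) * (Real.cos θ + Real.sin θ * Complex.I)) ∈ (starSet 0 a)ᶜ ↔
        r ∈ Ioi (Real.sqrt (a θ)) := by
      unfold starSet
      simp only [mem_compl_iff, mem_setOf_eq, dist_zero_right, sub_zero]
      rw [arg_pt hr hθ, norm_pt hr.le]
      simp only [mem_Ioi, not_le]
      rw [Real.sqrt_lt' hr]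
    by_cases hm : r ∈ Ioi (Real.sqrt (a θ))
    · rw [indicator_of_mem (key.2 hm), indicator_of_mem hm]
      congr 2
      unfold radT
      rw [sub_zero, arg_pt hr hθ, dist_zero_right, norm_pt hr.le, zero_add,
        Complex.exp_mul_I, Complex.ofReal_cos, Complex.ofReal_sin]
    · rw [indicator_of_notMem (fun h => hm (key.1 h)), indicator_of_notMem hm]; simp
  · rw [indicator_of_notMem (show r ∉ Ioi (0 : ℝ) from hr), indicator_of_notMem]
    intro h
    exact hr (lt_of_le_of_lt (Real.sqrt_nonneg _) h)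

theorem mp0 (a : ℝ → ℝ) (ha : Measurable a) (h0 : ∀ θ, 0 ≤ a θ) :
    MeasurePreserving (radT 0 a) (volume.restrict (starSet 0 a)ᶜ) volume := by
  refine ⟨meas_radT 0 a ha, ?_⟩
  ext s hs
  rw [Measure.map_apply (meas_radT 0 a ha) hs, ← lintegral_indicator_one (meas_radT 0 a ha hs),
    ← lintegral_indicator_one hs, ← lint0 a ha h0 (indicator s 1) (measurable_one.indicator hs)]
  rfl

theorem star_shift (v : ℂ) (a : ℝ → ℝ) :
    starSet v a = (fun x => x - v) ⁻¹' (starSet 0 a) := by
  ext x
  simp [starSet, dist_eq_norm]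

theorem radT_shift (v : ℂ) (a : ℝ → ℝ) :
    radT v a = (fun x => v + x) ∘ radT 0 a ∘ (fun x => x - v) := by
  ext x
  simp [radT, dist_eq_norm]

end H88RM

open H88RM in
theorem rm_thm : S_RM := by
  intro v a M ha h0 _
  have hsub : MeasurePreserving (fun x : ℂ => x - v) volume volume :=
    measurePreserving_sub_right volume v
  refine ⟨meas_star v a ha, ?_, ?_⟩
  · have h1 : MeasurePreserving (fun x : ℂ => x - v) (volume.restrict (starSet v a)ᶜ)
        (volume.restrict (starSet 0 a)ᶜ) := by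
      have := hsub.restrict_preimage (meas_star 0 a ha).compl
      rw [star_shift v a, ← preimage_compl]
      exact this
    have h2 : MeasurePreserving (fun x : ℂ => v + x) volume volume :=
      measurePreserving_add_left volume v
    rw [radT_shift v a]
    exact h2.comp ((mp0 a ha h0).comp h1)
  · rw [star_shift v a, hsub.measure_preimage (meas_star 0 a ha).nullMeasurableSet,
      vol_star0 a ha h0]

end KN
end
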